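import Mathlib

/-!
# Riemann sums of continuous functions on the unit square (by helper469)
-/

set_option autoImplicit false

open Filter Finset MeasureTheory
open scoped Topology

namespace Pool.Agent.Y469.AF

/-- A sum over the cells of the unit interval and an integral. -/
theorem cell {F : ℝ → ℝ} (hF : Continuous F) {A : ℕ → ℝ} {L : ℕ} (hL : 0 < L) {ε : ℝ}
    (h : ∀ t < L, ∀ x : ℝ, (t : ℝ) / L ≤ x → x ≤ ((t : ℝ) + 1) / L → |A t - F x| ≤ ε) :
    |(∑ t ∈ range L, A t) / L - ∫ x in (0 : ℝ)..1, F x| ≤ ε := by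
  have hL0 : (0 : ℝ) < L := by exact_mod_cast hL
  have h1 : ∫ x in (0 : ℝ)..1, F x =
      ∑ t ∈ range L, ∫ x in ((t : ℝ) / L)..(((t + 1 : ℕ) : ℝ) / L), F x := by
    rw [intervalIntegral.sum_integral_adjacent_intervals (a := fun t : ℕ => (t : ℝ) / L)]
    · simp [hL0.ne']
    · intro k _
      exact hF.intervalIntegrable _ _
  have h2 : ∀ t ∈ range L, |A t / L - ∫ x in ((t : ℝ) / L)..(((t + 1 : ℕ) : ℝ) / L), F x| ≤
      ε / L := by
    intro t ht
    have ht' := Finset.mem_range.1 ht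
    have e1 : ((t + 1 : ℕ) : ℝ) / L - (t : ℝ) / L = 1 / L := by
      push_cast
      ring
    have e2 : A t / L = ∫ _x in ((t : ℝ) / L)..(((t + 1 : ℕ) : ℝ) / L), A t := by
      rw [intervalIntegral.integral_const, e1, smul_eq_mul]
      ring
    rw [e2, ← intervalIntegral.integral_sub intervalIntegrable_const
      (hF.intervalIntegrable _ _)]
    have e3 := intervalIntegral.norm_integral_le_of_norm_le_const (a := (t : ℝ) / L)
      (b := ((t + 1 : ℕ) : ℝ) / L) (C := ε) (f := fun x => A t - F x) (by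
        intro x hx
        have hle : (t : ℝ) / L ≤ ((t + 1 : ℕ) : ℝ) / L := by
          rw [← sub_nonneg, e1]
          positivity
        rw [Set.uIoc_of_le hle] at hx
        rw [Real.norm_eq_abs]
        refine h t ht' x hx.1.le ?_
        have := hx.2
        push_cast at this
        exact this)
    rw [Real.norm_eq_abs, e1, abs_of_pos (show (0 : ℝ) < 1 / L by positivity)] at e3
    calc _ ≤ ε * (1 / L) := e3
      _ = ε / L := by ring
  rw [h1, Finset.sum_div, ← Finset.sum_sub_distrib]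
  calc |∑ t ∈ range L, (A t / L - ∫ x in ((t : ℝ) / L)..(((t + 1 : ℕ) : ℝ) / L), F x)|
      ≤ ∑ t ∈ range L, |A t / L - ∫ x in ((t : ℝ) / L)..(((t + 1 : ℕ) : ℝ) / L), F x| :=
        Finset.abs_sum_le_sum_abs _ _
    _ ≤ ∑ _t ∈ range L, ε / L := Finset.sum_le_sum h2
    _ = ε := by
      rw [Finset.sum_const, Finset.card_range, nsmul_eq_mul]
      field_simp

/-- Riemann sums over the unit square of a continuous function with parameters. -/
theorem riem {P : Type*} [PseudoMetricSpace P] [ProperSpace P] (g : P → ℝ → ℝ → ℝ)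
    (hg : Continuous fun z : P × ℝ × ℝ => g z.1 z.2.1 z.2.2) (c : ℕ → P) (c₀ : P)
    (hc : Tendsto c atTop (𝓝 c₀)) :
    Tendsto (fun L : ℕ => (∑ t ∈ range L, ∑ s ∈ range L, g (c L) ((t : ℝ) / L) ((s : ℝ) / L)) /
      (L : ℝ) ^ 2) atTop (𝓝 (∫ x in (0 : ℝ)..1, ∫ y in (0 : ℝ)..1, g c₀ x y)) := by
  rw [Metric.tendsto_atTop]
  intro ε hε
  have hK : IsCompact (Metric.closedBall c₀ 1 ×ˢ (Set.Icc (0 : ℝ) 1 ×ˢ Set.Icc (0 : ℝ) 1)) :=
    (isCompact_closedBall c₀ 1).prod (isCompact_Icc.prod isCompact_Icc)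
  have hu := hK.uniformContinuousOn_of_continuous hg.continuousOn
  rw [Metric.uniformContinuousOn_iff] at hu
  obtain ⟨δ, hδ, hu⟩ := hu (ε / 2) (by positivity)
  rw [Metric.tendsto_atTop] at hc
  obtain ⟨N₁, hN₁⟩ := hc (min δ 1) (by positivity)
  obtain ⟨N₂, hN₂⟩ := exists_nat_gt (1 / δ)
  refine ⟨max N₁ (max N₂ 1), fun L hL => ?_⟩
  have hL1 : N₁ ≤ L := (le_max_left _ _).trans hL
  have hL2 : N₂ ≤ L := ((le_max_left _ _).trans (le_max_right _ _)).trans hL
  have hL3 : 1 ≤ L := ((le_max_right _ _).trans (le_max_right _ _)).trans hL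
  have hL0 : (0 : ℝ) < L := by exact_mod_cast hL3
  have hLδ : 1 / (L : ℝ) < δ := by
    rw [div_lt_comm₀ hL0 hδ]
    exact hN₂.trans_le (by exact_mod_cast hL2)
  have hcL := hN₁ L hL1
  have hcell : ∀ t < L, ∀ x : ℝ, (t : ℝ) / L ≤ x → x ≤ ((t : ℝ) + 1) / L →
      (t : ℝ) / L ∈ Set.Icc (0 : ℝ) 1 ∧ x ∈ Set.Icc (0 : ℝ) 1 ∧ dist ((t : ℝ) / L) x < δ := by
    intro t ht x h1 h2
    have ht1 : (t : ℝ) + 1 ≤ L := by exact_mod_cast ht
    have h3 : (0 : ℝ) ≤ (t : ℝ) / L := by positivity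
    have h4 : ((t : ℝ) + 1) / L ≤ 1 := by rw [div_le_one hL0]; exact ht1
    refine ⟨⟨h3, h1.trans (h2.trans h4)⟩, ⟨h3.trans h1, h2.trans h4⟩, ?_⟩
    rw [dist_comm, Real.dist_eq, abs_of_nonneg (by linarith)]
    have : ((t : ℝ) + 1) / L = (t : ℝ) / L + 1 / L := by ring
    linarith
  have hgc : ∀ x : ℝ, Continuous fun y => g c₀ x y := fun x =>
    hg.comp (Continuous.prodMk continuous_const (Continuous.prodMk continuous_const continuous_id))
  have hF : Continuous fun x => ∫ y in (0 : ℝ)..1, g c₀ x y := by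
    apply intervalIntegral.continuous_parametric_intervalIntegral_of_continuous'
    exact hg.comp (Continuous.prodMk continuous_const continuous_id)
  have e1 : (∑ t ∈ range L, ∑ s ∈ range L, g (c L) ((t : ℝ) / L) ((s : ℝ) / L)) / (L : ℝ) ^ 2 =
      (∑ t ∈ range L, (∑ s ∈ range L, g (c L) ((t : ℝ) / L) ((s : ℝ) / L)) / L) / L := by
    rw [← Finset.sum_div, div_div, sq]
  rw [Real.dist_eq, e1]
  refine lt_of_le_of_lt (cell hF (by omega) (ε := ε / 2) fun t ht x hx1 hx2 => ?_) (by linarith)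
  refine cell (hgc x) (by omega) fun s hs y hy1 hy2 => ?_
  obtain ⟨h1, h2, h3⟩ := hcell t ht x hx1 hx2
  obtain ⟨h4, h5, h6⟩ := hcell s hs y hy1 hy2
  have h7 := hu (c L, ((t : ℝ) / L, (s : ℝ) / L))
    ⟨Metric.mem_closedBall.2 (hcL.le.trans (min_le_right _ _)), h1, h4⟩ (c₀, (x, y))
    ⟨Metric.mem_closedBall_self zero_le_one, h2, h5⟩ (by
      rw [Prod.dist_eq, Prod.dist_eq, max_lt_iff, max_lt_iff]
      exact ⟨hcL.trans_le (min_le_left _ _), h3, h6⟩)
  rw [Real.dist_eq] at h7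
  exact h7.le

/-- `L sinh (p / L) → q` if `p → q > 0`. -/
theorem tendsto_sinh {p : ℕ → ℝ} {q : ℝ} (hq : 0 < q) (hp : Tendsto p atTop (𝓝 q)) :
    Tendsto (fun L : ℕ => (L : ℝ) * Real.sinh (p L / L)) atTop (𝓝 q) := by
  have h1 : Tendsto (fun L : ℕ => p L / L) atTop (𝓝[≠] 0) := by
    rw [tendsto_nhdsWithin_iff]
    refine ⟨hp.div_atTop tendsto_natCast_atTop_atTop, ?_⟩
    filter_upwards [hp.eventually (lt_mem_nhds hq), eventually_gt_atTop 0] with L h2 h3
    have : (0 : ℝ) < L := by exact_mod_cast h3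
    have : 0 < p L / L := by positivity
    exact this.ne'
  have h2 := (hasDerivAt_iff_tendsto_slope_zero.1 (Real.hasDerivAt_sinh 0)).comp h1
  simp only [Real.cosh_zero, zero_add, Real.sinh_zero, sub_zero, smul_eq_mul] at h2
  have h3 := hp.mul h2
  rw [mul_one] at h3
  refine h3.congr' ?_
  filter_upwards [hp.eventually (lt_mem_nhds hq), eventually_gt_atTop 0] with L h4 h5
  have h6 : (0 : ℝ) < L := by exact_mod_cast h5
  simp only [Function.comp_apply]
  field_simp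

end Pool.Agent.Y469.AF
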