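import Pool.Agent.Y16.AF.StmB
import Pool.Agent.Y469.AF.Riem

/-!
# AF2-VL: scaling limit of `VV` (by helper469)
-/

set_option autoImplicit false

open Filter Finset MeasureTheory
open scoped Topology

namespace Pool.Agent.Y469.AF

open Pool.Agent.Y16.AF (S_VL VV GN GD)

/-- The continuum integrand, without the denominators; `c = (p, h)`. -/
noncomputable def gV (c : ℝ × ℝ) (x y : ℝ) : ℝ :=
  (x - y) ^ 2 * ((Real.cosh (c.1 * (min x y + c.2)) * Real.cosh (c.1 * (1 - c.2 - max x y))) ^ 2 +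
    (Real.sinh (c.1 * min x y) * Real.sinh (c.1 * (1 - max x y))) ^ 2)

theorem continuous_gV : Continuous fun z : (ℝ × ℝ) × ℝ × ℝ => gV z.1 z.2.1 z.2.2 := by
  unfold gV
  fun_prop

theorem VV_eq {L : ℕ} (hL : 0 < L) (p : ℝ) :
    VV L (p / L) / (L : ℝ) ^ 6 =
      (∑ t ∈ range L, ∑ s ∈ range L, gV (p, 1 / (2 * L)) ((t : ℝ) / L) ((s : ℝ) / L)) /
        (L : ℝ) ^ 2 / ((L * Real.sinh (p / L)) * Real.sinh p) ^ 2 := by
  have hL0 : (0 : ℝ) < L := by exact_mod_cast hL
  have key : ∀ t s : ℕ, ((t : ℝ) - s) ^ 2 * (GN L (p / L) t s ^ 2 + GD L (p / L) t s ^ 2) =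
      (L : ℝ) ^ 4 * gV (p, 1 / (2 * L)) ((t : ℝ) / L) ((s : ℝ) / L) /
        ((L * Real.sinh (p / L)) * Real.sinh p) ^ 2 := by
    intro t s
    have e0 : min ((t : ℝ) / L) ((s : ℝ) / L) = ((min t s : ℕ) : ℝ) / L := by
      rw [Nat.cast_min, min_div_div_right hL0.le]
    have e0' : max ((t : ℝ) / L) ((s : ℝ) / L) = ((max t s : ℕ) : ℝ) / L := by
      rw [Nat.cast_max, max_div_div_right hL0.le]
    have e1 : p * (((min t s : ℕ) : ℝ) / L + 1 / (2 * L)) =
        p / L * (((min t s : ℕ) : ℝ) + 1 / 2) := by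
      field_simp
    have e2 : p * (1 - 1 / (2 * L) - ((max t s : ℕ) : ℝ) / L) =
        p / L * (L - 1 / 2 - ((max t s : ℕ) : ℝ)) := by
      field_simp
    have e3 : p * (((min t s : ℕ) : ℝ) / L) = p / L * ((min t s : ℕ) : ℝ) := by
      ring
    have e4 : p * (1 - ((max t s : ℕ) : ℝ) / L) = p / L * (L - ((max t s : ℕ) : ℝ)) := by
      field_simp
    have e5 : p / L * L = p := by
      field_simp
    unfold gV GN GD
    rw [e0, e0']
    simp only
    rw [e1, e2, e3, e4, e5]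
    by_cases h0 : Real.sinh (p / L) * Real.sinh p = 0
    · have h0' : (L : ℝ) * Real.sinh (p / L) * Real.sinh p = 0 := by
        rw [mul_assoc, h0, mul_zero]
      rw [h0, h0']
      simp
    · have h1 : Real.sinh (p / L) ≠ 0 := left_ne_zero_of_mul h0
      have h2 : Real.sinh p ≠ 0 := right_ne_zero_of_mul h0
      field_simp
  unfold VV
  rw [Finset.sum_congr rfl fun t _ => Finset.sum_congr rfl fun s _ => key t s]
  simp only [← Finset.sum_div, ← Finset.mul_sum]
  field_simp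

/-- **AF2-VL.** -/
theorem af_vl : S_VL := by
  refine ⟨fun q => (∫ x in (0 : ℝ)..1, ∫ y in (0 : ℝ)..1, gV (q, 0) x y) / (q * Real.sinh q) ^ 2,
    fun p q hq hp => ?_⟩
  have h1 : Tendsto (fun L : ℕ => ((p L, 1 / (2 * (L : ℝ))) : ℝ × ℝ)) atTop (𝓝 (q, 0)) := by
    refine hp.prodMk_nhds ?_
    refine tendsto_const_nhds.div_atTop ?_
    exact tendsto_natCast_atTop_atTop.const_mul_atTop (by norm_num)
  have h2 := riem gV continuous_gV _ _ h1
  have h3 := (tendsto_sinh hq hp).mul ((Real.continuous_sinh.tendsto q).comp hp)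
  have h4 := h2.div (h3.pow 2) (pow_ne_zero 2 (mul_ne_zero hq.ne' (Real.sinh_pos_iff.2 hq).ne'))
  refine h4.congr' ?_
  filter_upwards [eventually_gt_atTop 0] with L hL
  exact (VV_eq hL (p L)).symm

end Pool.Agent.Y469.AF
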